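import Mathlib

set_option autoImplicit false

namespace Pool.Agent.Results.MP_940262_co.Counter

/-- The `k`-domination number: least size of a set within distance `k` of every vertex. -/
noncomputable def gammaK {V : Type} (G : SimpleGraph V) (k : ℕ) : ℕ :=
  sInf {m | ∃ D : Finset V, D.card = m ∧ ∀ v, ∃ u ∈ D, G.edist u v ≤ (k : ℕ∞)}

/-- The minimum `k`-degree. -/
noncomputable def deltaK {V : Type} (G : SimpleGraph V) (k : ℕ) : ℕ :=
  sInf {d | ∃ v, d = Set.ncard {u | u ≠ v ∧ G.edist u v ≤ (k : ℕ∞)}}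

/-- Deleting any vertex lowers the `k`-domination number, which equals `l`. -/
def Critical {V : Type} (G : SimpleGraph V) (k l : ℕ) : Prop :=
  gammaK G k = l ∧ ∀ v : V, gammaK (G.induce {u | u ≠ v}) k < gammaK G k

theorem edist_le_two {V : Type} (G : SimpleGraph V) (u v : V) :
    G.edist u v ≤ ((2 : ℕ) : ℕ∞) ↔ u = v ∨ G.Adj u v ∨ ∃ w, G.Adj u w ∧ G.Adj w v := by
  constructor
  · intro h
    obtain ⟨p, hp⟩ := SimpleGraph.exists_walk_of_edist_ne_top (G := G) (u := u) (v := v)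
      (fun ht => by rw [ht] at h; simp at h)
    rw [← hp] at h
    have h2 : p.length ≤ 2 := by exact_mod_cast h
    match p, h2 with
    | .nil, _ => exact Or.inl rfl
    | .cons h1 .nil, _ => exact Or.inr (Or.inl h1)
    | .cons h1 (.cons h2 .nil), _ => exact Or.inr (Or.inr ⟨_, h1, h2⟩)
    | .cons _ (.cons _ (.cons _ _)), h2 => simp at h2
  · rintro (rfl | h | ⟨w, h1, h2⟩)
    · simp
    · exact le_trans (SimpleGraph.Walk.edist_le (.cons h .nil)) (by simp)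
    · exact le_trans (SimpleGraph.Walk.edist_le (.cons h1 (.cons h2 .nil))) (by simp)

/-- The Moebius ladder on 16 vertices. -/
def gr : SimpleGraph (Fin 16) where
  Adj a b := b = a + 1 ∨ a = b + 1 ∨ b = a + 8
  symm := ⟨by decide⟩
  loopless := ⟨by decide⟩

instance : DecidableRel gr.Adj := fun a b =>
  inferInstanceAs (Decidable (b = a + 1 ∨ a = b + 1 ∨ b = a + 8))

theorem no_two : ∀ x y : Fin 16, ∃ v, ∀ u, u = x ∨ u = y →
    ¬ (u = v ∨ gr.Adj u v ∨ ∃ w, gr.Adj u w ∧ gr.Adj w v) := by decide +kernel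

theorem three : ∀ v : Fin 16, ∃ u ∈ ({0, 3, 4} : Finset (Fin 16)),
    (u = v ∨ gr.Adj u v ∨ ∃ w, gr.Adj u w ∧ gr.Adj w v) := by decide +kernel

theorem gamma_eq : gammaK gr 2 = 3 := by
  have h3 : 3 ∈ {m | ∃ D : Finset (Fin 16), D.card = m ∧
      ∀ v, ∃ u ∈ D, gr.edist u v ≤ ((2 : ℕ) : ℕ∞)} :=
    ⟨{0, 3, 4}, by decide, fun v => by simp only [edist_le_two]; exact three v⟩
  apply le_antisymm (Nat.sInf_le h3)
  by_contra hc
  obtain ⟨D, hD, hdom⟩ := Nat.sInf_mem ⟨3, h3⟩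
  have hcard : D.card ≤ 2 := by omega
  obtain ⟨x, y, hxy⟩ : ∃ x y, D ⊆ {x, y} := by
    obtain ⟨E, h1, -, h2⟩ := Finset.exists_subsuperset_card_eq (Finset.subset_univ D) hcard
      (by simp)
    obtain ⟨x, y, -, rfl⟩ := Finset.card_eq_two.mp h2
    exact ⟨x, y, h1⟩
  obtain ⟨v, hv⟩ := no_two x y
  obtain ⟨u, hu, h⟩ := hdom v
  exact hv u (by simpa using hxy hu) ((edist_le_two _ _ _).mp h)

theorem del : ∀ v : Fin 16, ∃ x y, x ≠ v ∧ y ≠ v ∧ ∀ z, z ≠ v → ∃ u, (u = x ∨ u = y) ∧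
    (u = z ∨ gr.Adj u z ∨ ∃ w, w ≠ v ∧ gr.Adj u w ∧ gr.Adj w z) := by decide +kernel

theorem crit (v : Fin 16) : gammaK (gr.induce {u | u ≠ v}) 2 ≤ 2 := by
  obtain ⟨x, y, hx, hy, h⟩ := del v
  refine le_trans (Nat.sInf_le ⟨{⟨x, hx⟩, ⟨y, hy⟩}, rfl, ?_⟩) Finset.card_le_two
  rintro ⟨z, hz⟩
  obtain ⟨u, hu, h2⟩ := h z hz
  have huv : u ≠ v := by rcases hu with rfl | rfl <;> assumption
  refine ⟨⟨u, huv⟩, by simpa using hu, ?_⟩
  rw [edist_le_two]
  rcases h2 with h2 | h2 | ⟨w, hw, h3, h4⟩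
  · exact Or.inl (Subtype.ext h2)
  · exact Or.inr (Or.inl h2)
  · exact Or.inr (Or.inr ⟨⟨w, hw⟩, h3, h4⟩)

theorem deg : ∀ v : Fin 16, (Finset.univ.filter (fun u => u ≠ v ∧
    (u = v ∨ gr.Adj u v ∨ ∃ w, gr.Adj u w ∧ gr.Adj w v))).card = 7 := by decide +kernel

theorem delta_eq : deltaK gr 2 = 7 := by
  have h : ∀ v : Fin 16, Set.ncard {u | u ≠ v ∧ gr.edist u v ≤ ((2 : ℕ) : ℕ∞)} = 7 := by
    intro v
    rw [← deg v, ← Set.ncard_coe_finset]
    congr 1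
    ext u
    simp only [edist_le_two]
    simp
  have : {d | ∃ v : Fin 16, d = Set.ncard {u | u ≠ v ∧ gr.edist u v ≤ ((2 : ℕ) : ℕ∞)}} = {7} := by
    ext d
    simp only [h]
    simp
  unfold deltaK
  rw [this]
  simp

theorem result : ∃ k l : ℕ, 2 ≤ k ∧ 3 ≤ l ∧ ∃ (n : ℕ) (G : SimpleGraph (Fin n)),
    G.Connected ∧ Critical G k l ∧ n ≤ (deltaK G k + 1) * (l - 1) := by
  refine ⟨2, 3, le_rfl, le_rfl, 16, gr, by decide +kernel, ⟨gamma_eq, fun v => ?_⟩, ?_⟩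
  · have := crit v
    rw [gamma_eq]
    omega
  · rw [delta_eq]

end Pool.Agent.Results.MP_940262_co.Counter
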